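import Pool.Agent.Multibrot.Scales
import Pool.Agent.Multibrot.SectorTwo
import Pool.Agent.Modu.Main
import Pool.Prelude.Def_F_c31e40fa

set_option autoImplicit false

open N62a1eb23

namespace Pool.Agent.Results.MP_fcb70f_an.Modulus

/-- **The modulus of local connectivity of the Multibrot sets.** (1) For every `n ≥ 2` any two
points `a`, `b` of the Multibrot set of power `n` lie in a connected subset of it whose diameter is
at most `(1 + 4 (log n + 4) / n) |a - b| + (log n + 55) / n`. (2) There are absolute constants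
`c, C > 0` such that for every `k` with `log^[k] n ≥ 1` any two points at distance at most
`c / (n * log n * log (log n) * ... * log^[k] n)` lie in a connected subset of diameter at most
`C (1 + log^[k+2] n) / n`. (3) This is sharp at all scales: if `n` is at least the `(k+1)`-fold
iterated exponential of `1000` then there are two points at distance at most
`7 / (n * log n * ... * log^[k] n)` such that every connected subset containing both of them
contains a point at distance at least `log^[k+1] n / n` from the first one. -/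
theorem result :
    (∀ n : ℕ, 2 ≤ n → ∀ a ∈ multibrotSet n, ∀ b ∈ multibrotSet n,
      ∃ S : Set ℂ, S ⊆ multibrotSet n ∧ IsConnected S ∧ a ∈ S ∧ b ∈ S ∧
        ∀ x ∈ S, ∀ y ∈ S, dist x y ≤
          (1 + 4 * (Real.log n + 4) / n) * dist a b + (Real.log n + 55) / n) ∧
    (∃ c C : ℝ, 0 < c ∧ 0 < C ∧ ∀ (k n : ℕ) (x : ℝ), 2 ≤ n → 0 ≤ x →
      Real.exp^[k] 1 ≤ n → (n : ℝ) ≤ Real.exp^[k + 2] x →
      ∀ a ∈ multibrotSet n, ∀ b ∈ multibrotSet n,
      dist a b ≤ c / (n * ∏ j ∈ Finset.range k, Real.log^[j + 1] (n : ℝ)) →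
      ∃ S : Set ℂ, S ⊆ multibrotSet n ∧ IsConnected S ∧ a ∈ S ∧ b ∈ S ∧
        ∀ z ∈ S, dist a z ≤ C * (1 + x) / n) ∧
    (∀ k n : ℕ, Real.exp^[k + 1] (1000 : ℝ) ≤ (n : ℝ) →
      ∃ a ∈ multibrotSet n, ∃ b ∈ multibrotSet n,
      dist a b ≤ 7 / (n * ∏ j ∈ Finset.range k, Real.log^[j + 1] (n : ℝ)) ∧
      ∀ S : Set ℂ, S ⊆ multibrotSet n → IsConnected S → a ∈ S → b ∈ S →
        ∃ x ∈ S, Real.log^[k + 1] (n : ℝ) / n ≤ dist a x) := by
  refine ⟨?_, ?_, ?_⟩
  · intro n hn a ha b hb
    have he : multibrotSet n = Pool.Agent.Multibrot.MM n := Pool.Agent.Multibrot.MM_eq hn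
    rw [he] at ha hb ⊢
    simp only [dist_eq_norm]
    exact Pool.Agent.Multibrot.coarse' hn ha hb
  · obtain ⟨c, C, hc, hC, h⟩ := Pool.Agent.Modu.upper
    refine ⟨c, C, hc, hC, ?_⟩
    intro k n x hn hx h1 h2 a ha b hb hab
    have he : multibrotSet n = Pool.Agent.Multibrot.MM n := Pool.Agent.Multibrot.MM_eq hn
    rw [he] at ha hb ⊢
    obtain ⟨S, hS1, hS2, hS3, hS4, hS5⟩ := h k n x hn hx h1 h2 a ha b hb hab
    exact ⟨S, hS2, ⟨⟨a, hS3⟩, hS1⟩, hS3, hS4, hS5⟩
  · intro k n h
    have h2 : 2 ≤ n := by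
      have h1 := (Pool.Agent.Multibrot.le_exp_iter 1000 (k + 1)).trans h
      have h3 : (2 : ℝ) ≤ n := by linarith
      exact_mod_cast h3
    have he : multibrotSet n = Pool.Agent.Multibrot.MM n := Pool.Agent.Multibrot.MM_eq h2
    rw [he]
    exact Pool.Agent.Multibrot.allScales n k h

end Pool.Agent.Results.MP_fcb70f_an.Modulus
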