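import Pool.Agent.CUSP.All
import Pool.Agent.PSat.Conv
import Pool.Prelude.Def_F_c31e40fa

set_option autoImplicit false

open N62a1eb23 Topology Filter MeasureTheory

namespace Pool.Agent.Results.MP_fcb70f_an.NullSequenceOld

/-- `z` is a periodic point of `z ^ 2 + c` of exact period `k`, with multiplier `w`. -/
def Cycle (k : ℕ) (c z w : ℂ) : Prop :=
  (fun z => z ^ 2 + c)^[k] z = z ∧
    (∀ j : ℕ, 0 < j → j < k → (fun z => z ^ 2 + c)^[j] z ≠ z) ∧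
    deriv (fun z => z ^ 2 + c)^[k] z = w

/-- `P` parametrizes a hyperbolic component of period `K` of the Mandelbrot set by the
multiplier. -/
def Component (K : ℕ) (P : ℂ → ℂ) : Prop :=
  1 ≤ K ∧ DifferentiableOn ℂ P (Metric.ball 0 1) ∧
    ∀ v ∈ Metric.ball (0 : ℂ) 1, ∃ z : ℂ, Cycle K (P v) z v

/-- The component is a satellite component: `K = k b`, and for its root `r₀`, the map `z ^ 2 + r₀`
has a cycle of exact period `k` with multiplier `exp (2 π i a / b)`, where `0 < a < b` are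
coprime. -/
def Satellite (K : ℕ) (P : ℂ → ℂ) : Prop :=
  ∃ (k a b : ℕ) (r₀ z₀ : ℂ), K = k * b ∧ 0 < a ∧ a < b ∧ a.Coprime b ∧
    Tendsto P (𝓝[Metric.ball 0 1] 1) (𝓝 r₀) ∧
    Cycle k r₀ z₀ (Complex.exp (2 * Real.pi * Complex.I * a / b))

/-- `A` is a `p / q`-limb of the component parametrized by `P`, with root `r`: `P v` tends to `r` as
`v` tends to `exp (2 π i p / q)` in the unit disc, where `0 < p < q` are coprime, and `A` is an open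
and closed subset of `M \ {r}` which does not contain `0`. -/
def IsLimb (P : ℂ → ℂ) (p q : ℕ) (r : ℂ) (A : Set ℂ) : Prop :=
  0 < p ∧ p < q ∧ p.Coprime q ∧
  Tendsto P (𝓝[Metric.ball 0 1] (Complex.exp (2 * Real.pi * Complex.I * p / q))) (𝓝 r) ∧
  (0 : ℂ) ∉ A ∧ (∃ U : Set ℂ, IsOpen U ∧ A = (multibrotSet 2 \ {r}) ∩ U) ∧
  ∃ V : Set ℂ, IsOpen V ∧ (multibrotSet 2 \ {r}) \ A = (multibrotSet 2 \ {r}) ∩ V

/-- The parameters `c` for which `z ^ 2 + c` has an attracting cycle. -/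
def Hyperbolic : Set ℂ :=
  {c : ℂ | ∃ (k : ℕ) (z : ℂ), 1 ≤ k ∧ (fun z => z ^ 2 + c)^[k] z = z ∧
    ‖deriv (fun z => z ^ 2 + c)^[k] z‖ < 1}

/-- The component parametrized by `P`. -/
def Im (P : ℂ → ℂ) : Set ℂ := P '' Metric.ball 0 1

/-- `U` is a hyperbolic component. -/
def IsComponent (U : Set ℂ) : Prop := ∃ (K : ℕ) (P : ℂ → ℂ), Component K P ∧ U = Im P

/-- The area. -/
noncomputable def area (U : Set ℂ) : ℝ := (volume U).toReal

/-- The number `D K q / min (p, q - p) ^ 2`. -/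
noncomputable def σ (D : ℝ) (K p q : ℕ) : ℝ := D * K * q / ((min p (q - p) : ℕ) : ℝ) ^ 2

/-- `x.1` is a component, of some period `K`, with a limb of rotation number `x.2.1 / x.2.2` and
diameter at least `ε`, where `D K q ≤ min (p, q - p) ^ 2` for `p = x.2.1`, `q = x.2.2`. -/
def Big (D ε : ℝ) (x : Set ℂ × ℕ × ℕ) : Prop :=
  ∃ (K : ℕ) (P : ℂ → ℂ) (r : ℂ) (A : Set ℂ), Component K P ∧ x.1 = Im P ∧
    IsLimb P x.2.1 x.2.2 r A ∧ σ D K x.2.1 x.2.2 ≤ 1 ∧ ε ≤ Metric.diam A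

/-- **The hyperbolic components of the Mandelbrot set form a null sequence.** -/
theorem result :
    -- (0) the components are the connected components of the hyperbolic locus
    ((∀ (K : ℕ) (P : ℂ → ℂ), Component K P → ∀ c ∈ Im P,
        connectedComponentIn Hyperbolic c = Im P) ∧
      ∀ c ∈ Hyperbolic, ∃ (K : ℕ) (P : ℂ → ℂ), Component K P ∧ c ∈ Im P) ∧
    (∃ C : ℝ, 0 < C ∧
      -- (1) all components
      (∀ U : Set ℂ, IsComponent U →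
        Metric.diam U ≤ C * √(area U) * (1 + |Real.log (area U)|)) ∧
      (∀ s : Finset (Set ℂ), (∀ U ∈ s, IsComponent U) →
        ∑ U ∈ s, (Metric.diam U / (1 + |Real.log (Metric.diam U)|)) ^ 2 ≤ C) ∧
      (∀ ε : ℝ, 0 < ε → {U : Set ℂ | IsComponent U ∧ ε ≤ Metric.diam U}.Finite ∧
        ({U : Set ℂ | IsComponent U ∧ ε ≤ Metric.diam U}.ncard : ℝ) ≤
          C * (1 + |Real.log ε|) ^ 2 / ε ^ 2) ∧
      -- (2) the components which are no satellites, near the root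
      ∀ (K : ℕ) (P : ℂ → ℂ), Component K P → ¬ Satellite K P →
        ∃ r : ℂ, Tendsto P (𝓝[Metric.ball 0 1] 1) (𝓝 r) ∧ ∀ v ∈ Metric.ball (0 : ℂ) 1,
          ‖P v - r‖ * (1 - ‖v‖ ^ 2) ^ 2 ≤ C * ‖1 - v‖ ^ 4) ∧
    -- (3) cycles with multiplier one
    (∃ κ : ℝ, 0 < κ ∧ ∀ (k : ℕ) (c z : ℂ), 1 ≤ k → Cycle k c z 1 →
      κ ≤ ‖deriv (deriv (fun z => z ^ 2 + c)^[k]) z‖ *
        ‖deriv (fun c' : ℂ => (fun z => z ^ 2 + c')^[k] z) c‖) ∧
    -- (4) the limbs of all components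
    ∃ D : ℝ, 1 ≤ D ∧
      (∀ (K p q : ℕ) (P : ℂ → ℂ) (r : ℂ) (A : Set ℂ), Component K P → IsLimb P p q r A →
        σ D K p q ≤ 1 →
        Metric.diam A ≤ σ D K p q * area (Im P) ^ (1 / 2 - σ D K p q / 4) *
          (1 + |Real.log (area (Im P))|)) ∧
      ∀ ε : ℝ, 0 < ε → {x : Set ℂ × ℕ × ℕ | Big D ε x}.Finite ∧
        ({U : Set ℂ | ∃ y : ℕ × ℕ, Big D ε (U, y)}.ncard : ℝ) ≤
          D * (1 + |Real.log ε|) ^ 4 / ε ^ 4 := by
  have he : multibrotSet 2 = Pool.Agent.Multibrot.MM 2 := Pool.Agent.Multibrot.MM_eq le_rfl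
  have hcyc : ∀ (k : ℕ) (c z w : ℂ), Cycle k c z w ↔ Pool.Agent.MEY.Pt 2 k c z w := by
    intro k c z w
    constructor
    · rintro ⟨h1, h2, h3⟩
      exact ⟨h1, h2, h3⟩
    · rintro ⟨h1, h2, h3⟩
      exact ⟨h1, h2, h3⟩
  have hcomp : ∀ (K : ℕ) (P : ℂ → ℂ), Component K P ↔ Pool.Agent.PSat.Comp K P := by
    intro K P
    constructor
    · rintro ⟨h1, h2, h3⟩
      refine ⟨h1, h2, fun v hv => ?_⟩
      obtain ⟨z, hz⟩ := h3 v hv
      exact ⟨z, (hcyc _ _ _ _).1 hz⟩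
    · rintro ⟨h1, h2, h3⟩
      refine ⟨h1, h2, fun v hv => ?_⟩
      obtain ⟨z, hz⟩ := h3 v hv
      exact ⟨z, (hcyc _ _ _ _).2 hz⟩
  have hsat : ∀ (K : ℕ) (P : ℂ → ℂ), Satellite K P ↔ Pool.Agent.PSat.Sat K P := by
    intro K P
    constructor
    · rintro ⟨k, p, q, r0, z0, h1, h2, h3, h4, h5, h6⟩
      exact ⟨k, p, q, r0, z0, h1, h2, h3, h4, h5, (hcyc _ _ _ _).1 h6⟩
    · rintro ⟨k, p, q, r0, z0, h1, h2, h3, h4, h5, h6⟩
      exact ⟨k, p, q, r0, z0, h1, h2, h3, h4, h5, (hcyc _ _ _ _).2 h6⟩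
  have hlimb : ∀ (P : ℂ → ℂ) (p q : ℕ) (r : ℂ) (A : Set ℂ), IsLimb P p q r A ↔
      Pool.Agent.PSat.Lmb P p q r A := by
    intro P p q r A
    rw [← Pool.Agent.PSat.lmb_iff, ← he]
    rfl
  have hIs : ∀ U : Set ℂ, IsComponent U ↔ Pool.Agent.CUSP.IsHC U := by
    intro U
    simp only [IsComponent, Pool.Agent.CUSP.IsHC, hcomp, Im]
  have hBig : ∀ (D ε : ℝ) (x : Set ℂ × ℕ × ℕ), Big D ε x ↔ Pool.Agent.AEN.BigL D ε x := by
    intro D ε x
    simp only [Big, Pool.Agent.AEN.BigL, hcomp, hlimb, Im, σ, Pool.Agent.AEN.sg]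
  have hHyp : Hyperbolic = Pool.Agent.AEN.Hyp := rfl
  have hC := Pool.Agent.AEN.a_CCP
  obtain ⟨C, hC0, h1, h2, h3, h4⟩ := Pool.Agent.CUSP.a_FINC Pool.Agent.MEZ.a_NCZ
    Pool.Agent.MEZ.a_SECZ
  obtain ⟨κ, hκ, h5⟩ := Pool.Agent.CUSP.a_P0X
  obtain ⟨D, hD1, h6, h7⟩ := Pool.Agent.AEN.a_FIN3 Pool.Agent.MEZ.a_NCZ
  simp only [hcomp, hIs, hBig, hlimb, hsat, Im, area, σ]
  refine ⟨⟨?_, ?_⟩, ⟨C, hC0, h1, h2, h3, h4⟩, ⟨κ, hκ, ?_⟩, D, hD1, h6, h7⟩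
  · rw [hHyp]
    exact hC.1
  · rw [hHyp]
    exact hC.2
  · intro k c z hk hcy
    have h8 := h5 k c z hk ((hcyc _ _ _ _).1 hcy)
    have h9 : ‖deriv (deriv (Pool.Agent.Limb.F 2 c)^[k]) z / 2‖ ≤
        ‖deriv (deriv (fun z => z ^ 2 + c)^[k]) z‖ := by
      rw [norm_div, Complex.norm_ofNat]
      exact div_le_self (norm_nonneg _) (by norm_num)
    refine h8.trans ?_
    exact mul_le_mul_of_nonneg_right h9 (norm_nonneg _)

end Pool.Agent.Results.MP_fcb70f_an.NullSequenceOld
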