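import Pool.Agent.PLim.Final
import Pool.Prelude.Def_F_c31e40fa

set_option autoImplicit false

open N62a1eb23 Topology

namespace Pool.Agent.Results.MP_fcb70f_an.SmallLimbs

/-- `A` is a `p / q`-limb of period `k` with root `r` of the Multibrot set `M` of power `n`: the map
`z ^ n + r` has a fixed point of its `k`-th iterate with multiplier `exp (2 π i p / q)`, where
`0 < p < q` are coprime, and `A` is an open and closed subset of `M \ {r}` which does not contain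
`0`. -/
def IsLimb (n k p q : ℕ) (r : ℂ) (A : Set ℂ) : Prop :=
  1 ≤ k ∧ 0 < p ∧ p < q ∧ p.Coprime q ∧
  (∃ z : ℂ, (fun z => z ^ n + r)^[k] z = z ∧
    deriv (fun z => z ^ n + r)^[k] z = Complex.exp (2 * Real.pi * Complex.I * p / q)) ∧
  (0 : ℂ) ∉ A ∧ (∃ U : Set ℂ, IsOpen U ∧ A = (multibrotSet n \ {r}) ∩ U) ∧
  ∃ V : Set ℂ, IsOpen V ∧ (multibrotSet n \ {r}) \ A = (multibrotSet n \ {r}) ∩ V

/-- `c` lies in infinitely many limbs for which `min (p, q - p) ^ 2 > C (k log n) ^ 2 q`. -/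
def Deep (n : ℕ) (C : ℝ) (c : ℂ) : Prop :=
  ∀ N : ℕ, ∃ (k p q : ℕ) (r : ℂ) (A : Set ℂ), IsLimb n k p q r A ∧ c ∈ A ∧ N ≤ q ∧
    C * (k * Real.log n) ^ 2 * q < (min p (q - p) : ℕ) ^ 2

/-- **Polynomial limb bounds and local connectivity of the Multibrot sets.** -/
theorem result : ∃ C : ℝ, ∀ n : ℕ, 2 ≤ n →
    (∀ (k p q : ℕ) (r : ℂ) (A : Set ℂ), IsLimb n k p q r A → ∀ c ∈ A,
      dist c r ≤ C * Real.log n ^ 3 / n * (k ^ 2 * q / (min p (q - p) : ℕ) ^ 2)) ∧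
    (∀ c : ℂ, Deep n C c → ∀ N ∈ 𝓝 c, ∃ S : Set ℂ, S ⊆ multibrotSet n ∩ N ∧ IsConnected S ∧
      IsClosed S ∧ S ∈ 𝓝[multibrotSet n] c) ∧
    ∀ c₀ ∈ frontier (multibrotSet n), ∀ N ∈ 𝓝 c₀, ¬ (N ∩ {c : ℂ | Deep n C c}).Countable := by
  obtain ⟨C, -, hC⟩ := Pool.Agent.PLim.final
  refine ⟨C, fun n hn => ?_⟩
  have he : multibrotSet n = Pool.Agent.Multibrot.MM n := Pool.Agent.Multibrot.MM_eq hn
  have hlimb : ∀ (k p q : ℕ) (r : ℂ) (A : Set ℂ), IsLimb n k p q r A ↔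
      ∃ z0 : ℂ, Pool.Agent.PLim.IsLimb n k p q r z0 A := by
    intro k p q r A
    rw [← Pool.Agent.PLim.isL_iff, ← he]
    exact Iff.rfl
  have hdeep : ∀ c : ℂ, Deep n C c ↔ Pool.Agent.PLim.Inf n (C * Real.log n ^ 2) c := by
    intro c
    constructor
    · intro h N
      obtain ⟨k, p, q, r, A, hA, hcA, hN, hlt⟩ := h N
      obtain ⟨z0, hz⟩ := (hlimb k p q r A).1 hA
      refine ⟨k, p, q, r, z0, A, hz, hcA, hN, lt_of_eq_of_lt ?_ hlt⟩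
      ring
    · intro h N
      obtain ⟨k, p, q, r, z0, A, hA, hcA, hN, hlt⟩ := h N
      refine ⟨k, p, q, r, A, (hlimb k p q r A).2 ⟨z0, hA⟩, hcA, hN, lt_of_eq_of_lt ?_ hlt⟩
      ring
  obtain ⟨h1, h2, h3⟩ := hC n hn
  refine ⟨?_, ?_, ?_⟩
  · intro k p q r A hA c hc
    obtain ⟨z0, hz⟩ := (hlimb k p q r A).1 hA
    rw [dist_eq_norm]
    exact h1 k p q r z0 c A hz hc
  · intro c hc N hN
    rw [he]
    exact h2 c ((hdeep c).1 hc) N hN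
  · intro c₀ hc₀ N hN hcount
    rw [he] at hc₀
    refine h3 c₀ hc₀ N hN (hcount.mono ?_)
    rintro c ⟨h4, h5⟩
    exact ⟨h4, (hdeep c).2 h5⟩

end Pool.Agent.Results.MP_fcb70f_an.SmallLimbs
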