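import Pool.Agent.Multibrot.Uniform
import Pool.Prelude.Def_F_c31e40fa

set_option autoImplicit false

open Filter Topology N62a1eb23

namespace Pool.Agent.Results.MP_fcb70f_an.ZeroCriterion

/-- **Local connectivity of Multibrot sets can be tested at superattracting parameters, with
finite chains.** Write `P n k c` for the `k`-th iterate of `0` under `z ↦ z ^ n + c`. Let `N` be
any set of degrees, let `L` be a set of natural numbers such that every `j ≥ 1` divides arbitrarily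
large members of `L`, and let `η n k ≥ 0`, `τ n k > 0` tend to `0` as `k → ∞` for every `n ∈ N`.
All Multibrot sets with degree in `N` are locally connected if and only if for every `ε > 0` there
is a `δ > 0` such that for all `n ∈ N` with `n ≥ 2`, all `k ∈ L` with `k ≥ 1` and all zeros `a`,
`b` of `P n k` at distance less than `δ` there is a finite chain from `a` to `b` with steps of
length at most `τ n k`, whose points are at distance at most `ε` from `a` and satisfy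
`‖P n k v‖ ≤ 2 exp (η n k * n ^ k)`. -/
theorem result : ∀ N L : Set ℕ, (∀ j, 1 ≤ j → ∀ m, ∃ k ∈ L, m ≤ k ∧ j ∣ k) →
    ∀ η τ : ℕ → ℕ → ℝ, (∀ n ∈ N, (∀ k, 0 ≤ η n k ∧ 0 < τ n k) ∧
      Tendsto (η n) atTop (𝓝 0) ∧ Tendsto (τ n) atTop (𝓝 0)) →
    ((∀ n ∈ N, LocallyConnectedSpace (multibrotSet n)) ↔
      ∀ ε : ℝ, 0 < ε → ∃ δ : ℝ, 0 < δ ∧ ∀ n ∈ N, 2 ≤ n → ∀ k ∈ L, 1 ≤ k → ∀ a b : ℂ,
        (fun z : ℂ => z ^ n + a)^[k] 0 = 0 → (fun z : ℂ => z ^ n + b)^[k] 0 = 0 →
        dist a b < δ →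
        Relation.ReflTransGen (fun u v : ℂ => dist u v ≤ τ n k ∧ dist v a ≤ ε ∧
          ‖(fun z : ℂ => z ^ n + v)^[k] 0‖ ≤ 2 * Real.exp (η n k * (n : ℝ) ^ k)) a b) := by
  intro N L hL η τ hητ
  have h := Pool.Agent.Multibrot.zero_criterion N L hL η τ hητ
  have e : ∀ (n k : ℕ) (ε : ℝ) (a : ℂ), Pool.Agent.Multibrot.Step n k (η n k) (τ n k) ε a =
      fun u v : ℂ => dist u v ≤ τ n k ∧ dist v a ≤ ε ∧
        ‖(fun z : ℂ => z ^ n + v)^[k] 0‖ ≤ 2 * Real.exp (η n k * (n : ℝ) ^ k) := by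
    intro n k ε a
    funext u v
    show (dist u v ≤ τ n k ∧ dist v a ≤ ε ∧
      ‖Pool.Agent.Multibrot.Q n k v‖ ≤ 2 * Real.exp (η n k * (n : ℝ) ^ k)) = _
    rw [Pool.Agent.Multibrot.Q_eq_iterate]
  simp only [e, Pool.Agent.Multibrot.Q_eq_iterate] at h
  exact h

end Pool.Agent.Results.MP_fcb70f_an.ZeroCriterion
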